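import Mathlib
import Pool.Agent.Lib.MP_6bc78b_nt.MS.L.Iface

/-! Project MS, Part IIIa, module PS2: sums over pairs. -/

set_option autoImplicit false

open Filter Topology ArithmeticFunction

namespace Pool.Agent.Lib.MP_6bc78b_nt.MS.L.H67

open Pool.Agent.Lib.MP_6bc78b_nt.MS.L

lemma sum_pairs (N : ℕ) (F : ℕ → ℕ → ℝ) :
    ∑ n ∈ Finset.Icc 1 N, ∑ x ∈ n.divisorsAntidiagonal, F x.1 x.2 =
      ∑ a ∈ Finset.Icc 1 N, ∑ b ∈ Finset.Icc 1 (N / a), F a b := by
  rw [Finset.sum_sigma', Finset.sum_sigma']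
  refine Finset.sum_nbij' (fun z => ⟨z.2.1, z.2.2⟩) (fun z => ⟨z.1 * z.2, (z.1, z.2)⟩) ?_ ?_ ?_ ?_ ?_
  · rintro ⟨n, x, y⟩ h
    simp only [Finset.mem_sigma, Finset.mem_Icc, Nat.mem_divisorsAntidiagonal] at h ⊢
    obtain ⟨⟨h1, h2⟩, h3, h4⟩ := h
    subst h3
    have hx : 0 < x := Nat.pos_of_ne_zero (fun h => by simp [h] at h4)
    have hy : 0 < y := Nat.pos_of_ne_zero (fun h => by simp [h] at h4)
    refine ⟨⟨hx, le_trans (Nat.le_mul_of_pos_right x hy) h2⟩, hy, ?_⟩
    rw [Nat.le_div_iff_mul_le hx, mul_comm]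
    exact h2
  · rintro ⟨a, b⟩ h
    simp only [Finset.mem_sigma, Finset.mem_Icc, Nat.mem_divisorsAntidiagonal] at h ⊢
    obtain ⟨⟨h1, h2⟩, h3, h4⟩ := h
    rw [Nat.le_div_iff_mul_le (by omega), mul_comm] at h4
    have hne : a * b ≠ 0 := (Nat.mul_pos (by omega) (by omega)).ne'
    refine ⟨⟨Nat.mul_pos (by omega) (by omega), h4⟩, ?_⟩
    simp only [true_and]
    exact hne
  · rintro ⟨n, x, y⟩ h
    simp only [Finset.mem_sigma, Finset.mem_Icc, Nat.mem_divisorsAntidiagonal] at h
    obtain ⟨_, h3, _⟩ := h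
    subst h3
    rfl
  · rintro ⟨a, b⟩ _
    rfl
  · rintro ⟨n, x, y⟩ _
    rfl

/-- PS2. -/
theorem ps2 (h : Ps1Statement) : Ps2Statement := by
  intro w C0 hC0 hw hM
  refine ⟨2 * C0 * (2 + C0) + 1, by positivity, ?_⟩
  intro L t K f f' hL ht0 ht1 hf hf' hK hK'
  have hL0 : 0 < L := by linarith
  have hK0 : 0 ≤ K := le_trans (abs_nonneg _) (hK 0 ⟨le_rfl, ht0⟩)
  have hfc : Continuous f := continuous_iff_continuousAt.2 (fun u => (hf u).continuousAt)
  set X : ℝ := Real.exp (t * L) with hX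
  have hX1 : 1 ≤ X := Real.one_le_exp (by positivity)
  have hX0 : 0 < X := by linarith
  set N : ℕ := ⌊X⌋₊ with hN
  have hlogX : Real.log X = t * L := Real.log_exp _
  set g : ℝ → ℝ := fun u => ∫ v in u..t, f v with hg
  have hgd : ∀ u, HasDerivAt g (-f u) u := fun u =>
    intervalIntegral.integral_hasDerivAt_left (hfc.intervalIntegrable _ _)
      (hfc.stronglyMeasurableAtFilter _ _) hfc.continuousAt
  have hgt : g t = 0 := by simp only [hg, intervalIntegral.integral_same]
  have hgK : ∀ u ∈ Set.Icc 0 t, |g u| ≤ K := by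
    intro u hu
    have h1 : ‖∫ v in u..t, f v‖ ≤ K * |t - u| := by
      apply intervalIntegral.norm_integral_le_of_norm_le_const
      intro v hv
      rw [Set.uIoc_of_le hu.2] at hv
      rw [Real.norm_eq_abs]
      exact hK v ⟨by linarith [hv.1, hu.1], hv.2⟩
    rw [Real.norm_eq_abs] at h1
    refine le_trans h1 ?_
    rw [abs_of_nonneg (by linarith [hu.2])]
    have : t - u ≤ 1 := by linarith [hu.1]
    nlinarith
  -- the outer sum
  have hout := h w C0 hC0 hM L t K g (fun u => -f u) hL ht0 ht1 hgd hfc.neg hgK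
    (fun u hu => by rw [abs_neg]; exact hK u hu)
  have hint : ∫ u in (0 : ℝ)..t, g u = ∫ u in (0 : ℝ)..t, u * f u := by
    have hgc : Continuous g := continuous_iff_continuousAt.2 (fun u => (hgd u).continuousAt)
    have h1 : ∫ u in (0 : ℝ)..t, (g u + u * (-f u)) = t * g t - 0 * g 0 := by
      apply intervalIntegral.integral_eq_sub_of_hasDerivAt (f := fun u => u * g u)
      · intro u _
        have h3 := (hasDerivAt_id u).fun_mul (hgd u)
        simp only [id] at h3
        rw [one_mul] at h3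
        exact h3
      · exact (hgc.add (continuous_id.mul hfc.neg)).intervalIntegrable _ _
    have hci : Continuous (fun u : ℝ => u * (-f u)) := continuous_id.mul hfc.neg
    rw [hgt, mul_zero, zero_mul, sub_zero, intervalIntegral.integral_add
      (hgc.intervalIntegrable _ _) (hci.intervalIntegrable _ _)] at h1
    have h2 : ∫ u in (0 : ℝ)..t, u * -f u = - ∫ u in (0 : ℝ)..t, u * f u := by
      rw [← intervalIntegral.integral_neg]
      congr 1
      funext u
      ring
    linarith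
  rw [hint] at hout
  -- the inner sums
  have hin : ∀ a ∈ Finset.Icc 1 N, |∑ b ∈ Finset.Icc 1 (N / a), w b * f (Real.log (a * b : ℕ) / L) -
      L * g (Real.log a / L)| ≤ 2 * C0 * K := by
    intro a ha
    rw [Finset.mem_Icc] at ha
    have ha0 : (0 : ℝ) < a := by exact_mod_cast ha.1
    have ha1 : (1 : ℝ) ≤ a := by exact_mod_cast ha.1
    have haX : (a : ℝ) ≤ X := by
      have h1 : (a : ℝ) ≤ N := by exact_mod_cast ha.2
      exact le_trans h1 (Nat.floor_le hX0.le)
    set ua : ℝ := Real.log a / L with hua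
    have hua0 : 0 ≤ ua := div_nonneg (Real.log_nonneg ha1) hL0.le
    have huat : ua ≤ t := by
      rw [hua, div_le_iff₀ hL0, ← hlogX]
      exact Real.log_le_log ha0 haX
    have h1 := h w C0 hC0 hM L (t - ua) K (fun u => f (ua + u)) (fun u => f' (ua + u)) hL
      (by linarith) (by linarith) (fun u => by
        have := (hf (ua + u)).comp_const_add ua u
        exact this) (hf'.comp (continuous_const.add continuous_id)) (fun u hu =>
        hK _ ⟨by linarith [hu.1], by linarith [hu.2]⟩) (fun u hu =>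
        hK' _ ⟨by linarith [hu.1], by linarith [hu.2]⟩)
    have hexp : Real.exp ((t - ua) * L) = X / a := by
      have : (t - ua) * L = t * L - Real.log a := by
        rw [hua]; field_simp
      rw [this, Real.exp_sub, Real.exp_log ha0]
    rw [hexp, Nat.floor_div_natCast, ← hN] at h1
    have h2 : ∫ u in (0 : ℝ)..(t - ua), f (ua + u) = g ua := by
      simp only [hg]
      rw [intervalIntegral.integral_comp_add_left]
      congr 1 <;> ring
    rw [h2] at h1
    have h3 : ∑ b ∈ Finset.Icc 1 (N / a), w b * f (Real.log (a * b : ℕ) / L) =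
        ∑ b ∈ Finset.Icc 1 (N / a), w b * f (ua + Real.log b / L) := by
      refine Finset.sum_congr rfl (fun b hb => ?_)
      rw [Finset.mem_Icc] at hb
      have hb0 : (0 : ℝ) < b := by exact_mod_cast hb.1
      rw [Nat.cast_mul, Real.log_mul ha0.ne' hb0.ne', add_div]
    rw [h3]
    exact h1
  have hsum : ∑ n ∈ Finset.Icc 1 N, (∑ x ∈ n.divisorsAntidiagonal, w x.1 * w x.2) *
      f (Real.log n / L) = ∑ a ∈ Finset.Icc 1 N, w a *
        ∑ b ∈ Finset.Icc 1 (N / a), w b * f (Real.log (a * b : ℕ) / L) := by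
    have h1 : ∀ n ∈ Finset.Icc 1 N, (∑ x ∈ n.divisorsAntidiagonal, w x.1 * w x.2) *
        f (Real.log n / L) = ∑ x ∈ n.divisorsAntidiagonal,
          w x.1 * (w x.2 * f (Real.log (x.1 * x.2 : ℕ) / L)) := by
      intro n _
      rw [Finset.sum_mul]
      refine Finset.sum_congr rfl (fun x hx => ?_)
      rw [(Nat.mem_divisorsAntidiagonal.1 hx).1]
      ring
    rw [Finset.sum_congr rfl h1, sum_pairs N (fun a b => w a * (w b * f (Real.log (a * b : ℕ) / L)))]
    refine Finset.sum_congr rfl (fun a _ => ?_)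
    rw [Finset.mul_sum]
  rw [hsum]
  have hW : ∑ a ∈ Finset.Icc 1 N, w a ≤ L + C0 := by
    have h1 := hM X hX1
    rw [← hN, hlogX, abs_le] at h1
    nlinarith [h1.2]
  have herr : |∑ a ∈ Finset.Icc 1 N, w a * (∑ b ∈ Finset.Icc 1 (N / a),
      w b * f (Real.log (a * b : ℕ) / L)) - ∑ a ∈ Finset.Icc 1 N, w a * (L * g (Real.log a / L))| ≤
      (L + C0) * (2 * C0 * K) := by
    rw [← Finset.sum_sub_distrib]
    refine le_trans (Finset.abs_sum_le_sum_abs _ _) ?_
    have h1 : ∀ a ∈ Finset.Icc 1 N, |w a * (∑ b ∈ Finset.Icc 1 (N / a),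
        w b * f (Real.log (a * b : ℕ) / L)) - w a * (L * g (Real.log a / L))| ≤
        w a * (2 * C0 * K) := by
      intro a ha
      rw [← mul_sub, abs_mul, abs_of_nonneg (hw a)]
      exact mul_le_mul_of_nonneg_left (hin a ha) (hw a)
    refine le_trans (Finset.sum_le_sum h1) ?_
    rw [← Finset.sum_mul]
    exact mul_le_mul_of_nonneg_right hW (by positivity)
  have hmain : ∑ a ∈ Finset.Icc 1 N, w a * (L * g (Real.log a / L)) =
      L * ∑ a ∈ Finset.Icc 1 N, w a * g (Real.log a / L) := by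
    rw [Finset.mul_sum]
    refine Finset.sum_congr rfl (fun a _ => ?_)
    ring
  rw [hmain] at herr
  have hout2 : |L * ∑ a ∈ Finset.Icc 1 N, w a * g (Real.log a / L) -
      L ^ 2 * ∫ u in (0 : ℝ)..t, u * f u| ≤ L * (2 * C0 * K) := by
    have h1 : L * ∑ a ∈ Finset.Icc 1 N, w a * g (Real.log a / L) -
        L ^ 2 * ∫ u in (0 : ℝ)..t, u * f u = L * (∑ a ∈ Finset.Icc 1 N, w a * g (Real.log a / L) -
          L * ∫ u in (0 : ℝ)..t, u * f u) := by ring
    rw [h1, abs_mul, abs_of_pos hL0]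
    exact mul_le_mul_of_nonneg_left hout hL0.le
  have h4 := abs_sub_le (∑ a ∈ Finset.Icc 1 N, w a * (∑ b ∈ Finset.Icc 1 (N / a),
      w b * f (Real.log (a * b : ℕ) / L))) (L * ∑ a ∈ Finset.Icc 1 N, w a * g (Real.log a / L))
      (L ^ 2 * ∫ u in (0 : ℝ)..t, u * f u)
  have h5 : C0 * (2 * C0 * K) ≤ C0 * (2 * C0 * K) * L := by
    have : 0 ≤ C0 * (2 * C0 * K) := by positivity
    nlinarith
  have h6 : 0 ≤ K * L := by positivity
  calc |∑ a ∈ Finset.Icc 1 N, w a * (∑ b ∈ Finset.Icc 1 (N / a),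
      w b * f (Real.log (a * b : ℕ) / L)) - L ^ 2 * ∫ u in (0 : ℝ)..t, u * f u| ≤
      (L + C0) * (2 * C0 * K) + L * (2 * C0 * K) := by linarith
    _ ≤ (2 * C0 * (2 + C0) + 1) * K * L := by nlinarith

end Pool.Agent.Lib.MP_6bc78b_nt.MS.L.H67
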